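import Pool.Agent.X261.TD.Cnt

/-!
The average over the squarefree polynomials of a given degree.
-/

set_option autoImplicit false

open Polynomial
open scoped Classical

namespace Pool.Agent.X261.TD

open Pool.Agent.X261.TW Pool.Agent.TH943.HJ

section comb

variable {k : Type} [Field k]

/-- a set of monic irreducible polynomials -/
def PSet (S : Finset k[X]) : Prop := ∀ P ∈ S, P.Monic ∧ Irreducible P

theorem PSet.dvd {S : Finset k[X]} (hS : PSet S) {P : k[X]} (hP : P.Monic ∧ Irreducible P)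
    (h : P ∣ ∏ Q ∈ S, Q) : P ∈ S := by
  obtain ⟨Q, hQ, hPQ⟩ := (Prime.dvd_finsetProd_iff hP.2.prime _).1 h
  rw [eq_of_monic_of_associated hP.1 (hS Q hQ).1 (hP.2.associated_of_dvd (hS Q hQ).2 hPQ)]
  exact hQ

theorem PSet.eq {S T : Finset k[X]} (hS : PSet S) (hT : PSet T) (h : ∏ Q ∈ S, Q = ∏ Q ∈ T, Q) :
    S = T := by
  ext P
  constructor
  · intro hP
    exact hT.dvd (hS P hP) (h ▸ Finset.dvd_prod_of_mem _ hP)
  · intro hP
    exact hS.dvd (hT P hP) (h ▸ Finset.dvd_prod_of_mem _ hP)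

theorem pset_primes {D : k[X]} (hD : D ≠ 0) : PSet (primes D) := fun P hP =>
  ⟨((mem_primes hD P).1 hP).1, ((mem_primes hD P).1 hP).2.1⟩

/-- a monic squarefree polynomial is the product of its prime divisors -/
theorem prod_primes {D : k[X]} (hm : D.Monic) (hs : Squarefree D) : ∏ P ∈ primes D, P = D := by
  have hD := hm.ne_zero
  have h1 : (∏ P ∈ primes D, P) ∣ D := by
    apply Finset.prod_dvd_of_coprime
    · intro R hR S hS hn
      exact coprime_of_ne (pset_primes hD R hR) (pset_primes hD S hS) hn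
    · intro R hR
      exact ((mem_primes hD R).1 hR).2.2
  obtain ⟨Z, hZ⟩ := h1
  have hpm : (∏ P ∈ primes D, P).Monic := monic_prod_of_monic _ _ fun P hP =>
    (pset_primes hD P hP).1
  have hZm : Z.Monic := Monic.of_mul_monic_left hpm (hZ ▸ hm)
  have hZ1 : Z = 1 := by
    by_contra hne
    have hnu : ¬ IsUnit Z := fun h => hne (hZm.isUnit_iff.1 h)
    obtain ⟨Q, hQm, hQ, hQZ⟩ := exists_monic_irreducible_factor Z hnu
    have hQD : Q ∣ D := hQZ.trans (Dvd.intro_left _ hZ.symm)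
    have hQp : Q ∈ primes D := (mem_primes hD Q).2 ⟨hQm, hQ, hQD⟩
    have h2 : Q * Q ∣ D := by
      rw [hZ]
      exact mul_dvd_mul (Finset.dvd_prod_of_mem _ hQp) hQZ
    exact hQ.not_isUnit (hs Q h2)
  rw [hZ1, mul_one] at hZ
  exact hZ.symm

end comb

section count

variable {k : Type} [Field k] {f : k[X]}

/-- the monic squarefree polynomials of degree `n` -/
def sqf (k : Type) [Field k] (n : ℕ) : Set k[X] := {D | D.Monic ∧ Squarefree D ∧ D.natDegree = n}

theorem sqf_finite [Finite k] (n : ℕ) : (sqf k n).Finite :=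
  (Pool.Agent.W313.Hyp.finite_mon (F := k) n).subset fun _ hP => ⟨hP.1, hP.2.2⟩

/-- the triples: a polynomial, a set of its primes and a choice of a prime of the same degree over
each of them -/
noncomputable def trip [Finite k] (f : k[X]) (n : ℕ) :
    Finset (Σ _ : k[X], Σ T : Finset k[X], ∀ P ∈ T, k[X]) :=
  (sqf_finite (k := k) n).toFinset.sigma fun D => (primes D).powerset.sigma fun T =>
    T.pi (ones f)

theorem card_trip [Finite k] (n : ℕ) : (trip f n).card =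
    ∑ D ∈ (sqf_finite (k := k) n).toFinset, ∏ P ∈ primes D, (1 + (ones f P).card) := by
  unfold trip
  rw [Finset.card_sigma]
  refine Finset.sum_congr rfl fun D _ => ?_
  rw [Finset.card_sigma, Finset.prod_one_add]
  refine Finset.sum_congr rfl fun T _ => ?_
  rw [Finset.card_pi]

/-- the product of the chosen primes and the product of the remaining ones -/
noncomputable def pairOf (x : Σ _ : k[X], Σ T : Finset k[X], ∀ P ∈ T, k[X]) : k[X] × k[X] :=
  (∏ P ∈ x.2.1.attach, x.2.2 P.1 P.2, ∏ P ∈ primes x.1 \ x.2.1, P)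

theorem mem_trip [Finite k] {n : ℕ} {x : Σ _ : k[X], Σ T : Finset k[X], ∀ P ∈ T, k[X]} :
    x ∈ trip f n ↔ x.1 ∈ sqf k n ∧ x.2.1 ⊆ primes x.1 ∧
      ∀ (P : k[X]) (hP : P ∈ x.2.1), x.2.2 P hP ∈ ones f P := by
  unfold trip
  rw [Finset.mem_sigma, Finset.mem_sigma, Set.Finite.mem_toFinset, Finset.mem_powerset,
    Finset.mem_pi]

theorem ones_spec (hd : f.natDegree = 3) {P R : k[X]} (hP : P ≠ 0) (h : R ∈ ones f P) :
    (R.Monic ∧ Irreducible R) ∧ R ∣ P.comp f ∧ R.natDegree = P.natDegree := by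
  have h1 := Finset.mem_filter.1 h
  have h2 := (mem_primes (comp_ne hd hP) R).1 h1.1
  exact ⟨⟨h2.1, h2.2.1⟩, h2.2.2, h1.2⟩

theorem half_inj (hd : f.natDegree = 3) {T T' : Finset k[X]} (hT : PSet T) (hT' : PSet T')
    {φ : ∀ P ∈ T, k[X]} {φ' : ∀ P ∈ T', k[X]} (hφ : ∀ P hP, φ P hP ∈ ones f P)
    (hφ' : ∀ P hP, φ' P hP ∈ ones f P)
    (h : ∏ P ∈ T.attach, φ P.1 P.2 = ∏ P ∈ T'.attach, φ' P.1 P.2) (P : k[X]) (hP : P ∈ T) :
    ∃ hP' : P ∈ T', φ P hP = φ' P hP' := by
  obtain ⟨hR, hRP, -⟩ := ones_spec hd (hT P hP).2.ne_zero (hφ P hP)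
  have h1 : φ P hP ∣ ∏ P ∈ T'.attach, φ' P.1 P.2 := by
    rw [← h]
    exact Finset.dvd_prod_of_mem (fun P : {P // P ∈ T} => φ P.1 P.2) (Finset.mem_attach T ⟨P, hP⟩)
  obtain ⟨⟨Q, hQ⟩, -, h2⟩ := (Prime.dvd_finsetProd_iff hR.2.prime _).1 h1
  obtain ⟨hS, hSQ, -⟩ := ones_spec hd (hT' Q hQ).2.ne_zero (hφ' Q hQ)
  have h3 : φ P hP = φ' Q hQ := eq_of_monic_of_associated hR.1 hS.1
    (hR.2.associated_of_dvd hS.2 h2)
  have h4 : P = Q := same_prime (f := f) (hT P hP) (hT' Q hQ) hR.2 hRP (h3 ▸ hSQ)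
  subst h4
  exact ⟨hQ, h3⟩

theorem pair_inj [Finite k] (hd : f.natDegree = 3) (n : ℕ) :
    Set.InjOn (pairOf (k := k)) (trip f n : Set (Σ _ : k[X], Σ T : Finset k[X], ∀ P ∈ T, k[X])) := by
  rintro ⟨D, T, φ⟩ hx ⟨D', T', φ'⟩ hx' he
  rw [Finset.mem_coe, mem_trip] at hx hx'
  obtain ⟨hD, hT, hφ⟩ := hx
  obtain ⟨hD', hT', hφ'⟩ := hx'
  dsimp only at hD hT hφ hD' hT' hφ'
  unfold pairOf at he
  dsimp only at he
  rw [Prod.mk.injEq] at he
  have hpD := pset_primes hD.1.ne_zero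
  have hpD' := pset_primes hD'.1.ne_zero
  have hpT : PSet T := fun P hP => hpD P (hT hP)
  have hpT' : PSet T' := fun P hP => hpD' P (hT' hP)
  have h1 := half_inj hd hpT hpT' hφ hφ' he.1
  have h2 := half_inj hd hpT' hpT hφ' hφ he.1.symm
  have hTT : T = T' := by
    ext P
    exact ⟨fun hP => (h1 P hP).1, fun hP => (h2 P hP).1⟩
  subst hTT
  have hφφ : φ = φ' := by
    funext P hP
    exact (h1 P hP).2
  subst hφφ
  have h3 : primes D \ T = primes D' \ T := by
    refine PSet.eq ?_ ?_ he.2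
    · exact fun P hP => hpD P (Finset.mem_sdiff.1 hP).1
    · exact fun P hP => hpD' P (Finset.mem_sdiff.1 hP).1
  have h4 : primes D = primes D' := by
    rw [← Finset.sdiff_union_of_subset hT, ← Finset.sdiff_union_of_subset hT', h3]
  have h5 : D = D' := by
    rw [← prod_primes hD.1 hD.2.1, ← prod_primes hD'.1 hD'.2.1, h4]
  subst h5
  rfl

/-- the monic polynomials -/
noncomputable def monF (k : Type) [Field k] [Finite k] (n : ℕ) : Finset k[X] :=
  (Pool.Agent.W313.Hyp.finite_mon (F := k) n).toFinset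

theorem card_monF [Finite k] (n : ℕ) : (monF k n).card = Nat.card k ^ n := by
  rw [← Pool.Agent.W313.Hyp.card_mon (F := k) n]
  unfold monF
  rw [← Set.ncard_eq_toFinset_card _ (Pool.Agent.W313.Hyp.finite_mon (F := k) n)]
  rfl

theorem pair_mem [Finite k] (hd : f.natDegree = 3) {n : ℕ}
    {x : Σ _ : k[X], Σ T : Finset k[X], ∀ P ∈ T, k[X]} (hx : x ∈ trip f n) :
    pairOf x ∈ (Finset.HasAntidiagonal.antidiagonal n).biUnion fun ij => monF k ij.1 ×ˢ monF k ij.2 := by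
  obtain ⟨hD, hT, hφ⟩ := mem_trip.1 hx
  have hpD := pset_primes hD.1.ne_zero
  have hm1 : ∀ P ∈ x.2.1.attach, (x.2.2 P.1 P.2).Monic := fun P _ =>
    (ones_spec hd (hpD P.1 (hT P.2)).2.ne_zero (hφ P.1 P.2)).1.1
  have hm2 : ∀ P ∈ primes x.1 \ x.2.1, P.Monic := fun P hP =>
    (hpD P (Finset.mem_sdiff.1 hP).1).1
  rw [Finset.mem_biUnion]
  refine ⟨((pairOf x).1.natDegree, (pairOf x).2.natDegree), ?_, ?_⟩
  · rw [Finset.HasAntidiagonal.mem_antidiagonal, ← hD.2.2]
    unfold pairOf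
    dsimp only
    rw [natDegree_prod_of_monic _ _ hm1, natDegree_prod_of_monic _ _ hm2]
    have h1 : ∑ P ∈ x.2.1.attach, (x.2.2 P.1 P.2).natDegree = ∑ P ∈ x.2.1, P.natDegree := by
      rw [← Finset.sum_attach x.2.1 fun P => P.natDegree]
      exact Finset.sum_congr rfl fun P _ =>
        (ones_spec hd (hpD P.1 (hT P.2)).2.ne_zero (hφ P.1 P.2)).2.2
    rw [h1, add_comm, Finset.sum_sdiff hT]
    conv_rhs => rw [← prod_primes hD.1 hD.2.1]
    rw [natDegree_prod_of_monic _ _ fun P hP => (hpD P hP).1]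
  · rw [Finset.mem_product]
    unfold monF
    rw [Set.Finite.mem_toFinset, Set.Finite.mem_toFinset]
    exact ⟨⟨monic_prod_of_monic _ _ hm1, rfl⟩, ⟨monic_prod_of_monic _ _ hm2, rfl⟩⟩

theorem card_trip_le [Finite k] (hd : f.natDegree = 3) (n : ℕ) :
    (trip f n).card ≤ (n + 1) * Nat.card k ^ n := by
  have h1 := Finset.card_le_card_of_injOn (pairOf (k := k)) (fun x hx => pair_mem hd hx)
    (pair_inj (f := f) hd n)
  refine h1.trans (Finset.card_biUnion_le.trans ?_)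
  have h2 : ∀ ij ∈ Finset.HasAntidiagonal.antidiagonal n, (monF k ij.1 ×ˢ monF k ij.2).card = Nat.card k ^ n := by
    intro ij hij
    rw [Finset.card_product, card_monF, card_monF, ← pow_add, Finset.HasAntidiagonal.mem_antidiagonal.1 hij]
  rw [Finset.sum_congr rfl h2, Finset.sum_const, Finset.Nat.card_antidiagonal, smul_eq_mul]

end count

section bound

variable {k K : Type} [Field k] [Field K] [Algebra k[X] K] [IsFractionRing k[X] K]
  {f : k[X]}

theorem index_prod (hm : f.Monic) (hd : f.natDegree = 3) (h2 : (2 : k) ≠ 0) {D : k[X]}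
    (hD : D ≠ 0) {u : k} (hu : u ≠ 0) :
    indexTwo (Pts (curve K f (C u * D))) ≠ 0 ∧ indexTwo (Pts (curve K f (C u * D))) ≤
      ∏ P ∈ primes D, (1 + (ones f P).card) := by
  have h1 := index_bound (K := K) hm hd h2 (mul_ne_zero (C_ne_zero.2 hu) hD)
  rw [primes_unit_mul hu hD] at h1
  refine ⟨h1.1, h1.2.trans ?_⟩
  rw [← Finset.prod_pow_eq_pow_sum]
  refine Finset.prod_le_prod' fun P hP => ?_
  have hP' := pset_primes hD P hP
  exact two_pow_le hd hP'.1 hP'.2

/-- the average over the squarefree polynomials of degree `n` -/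
theorem sum_sqf [Finite k] (hm : f.Monic) (hd : f.natDegree = 3) (h2 : (2 : k) ≠ 0)
    {u : k[X] → k} (hu : ∀ D, u D ≠ 0) (n : ℕ) :
    ∑ D ∈ (sqf_finite (k := k) n).toFinset, indexTwo (Pts (curve K f (C (u D) * D))) ≤
      (n + 1) * Nat.card k ^ n := by
  refine le_trans ?_ (card_trip_le (k := k) (f := f) hd n)
  rw [card_trip]
  refine Finset.sum_le_sum fun D hD => ?_
  rw [Set.Finite.mem_toFinset] at hD
  exact (index_prod (K := K) hm hd h2 hD.1.ne_zero (hu D)).2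

end bound

end Pool.Agent.X261.TD
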