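import Pool.Agent.X261.TD.Pts
import Pool.Agent.TH943.PT.Orb
import Pool.Agent.W313.Hyp.Irr
import Pool.Agent.W343.BSD.Elliptic

/-!
The splitting of the primes and the averages over the primes of a given degree.
-/

set_option autoImplicit false

open Polynomial
open scoped Classical

namespace Pool.Agent.X261.TD

open Pool.Agent.X261.TW Pool.Agent.TH943.HJ

section split

variable {k : Type} [Field k] {f : k[X]}

/-- the primes over `P` of the degree of `P` -/
noncomputable def ones (f P : k[X]) : Finset k[X] :=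
  (primes (P.comp f)).filter fun R => R.natDegree = P.natDegree

/-- the degree of a prime over `P` is a multiple of the degree of `P` -/
theorem degree_dvd {P R : k[X]} (hPm : P.Monic) (hP : Irreducible P) (hR : Irreducible R)
    (h : R ∣ P.comp f) : P.natDegree ∣ R.natDegree := by
  have hF : Fact (Irreducible R) := ⟨hR⟩
  have hfin : Module.Finite k (AdjoinRoot R) := (AdjoinRoot.powerBasis hR.ne_zero).finite
  have h0 : aeval (aeval (AdjoinRoot.root R) f) P = 0 := by
    rw [← aeval_comp]
    obtain ⟨Z, hZ⟩ := h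
    rw [hZ, map_mul, AdjoinRoot.aeval_eq, AdjoinRoot.mk_self, zero_mul]
  have h1 := minpoly.eq_of_irreducible_of_monic hP h0 hPm
  have h2 := minpoly.degree_dvd (K := k) (x := aeval (AdjoinRoot.root R) f)
    (Algebra.IsIntegral.isIntegral _)
  rw [← h1, (AdjoinRoot.powerBasis hR.ne_zero).finrank, AdjoinRoot.powerBasis_dim] at h2
  exact h2

theorem coprime_of_ne {P Q : k[X]} (hP : P.Monic ∧ Irreducible P) (hQ : Q.Monic ∧ Irreducible Q)
    (h : P ≠ Q) : IsCoprime P Q :=
  (Irreducible.coprime_iff_not_dvd hP.2).2 fun hd => h (eq_of_monic_of_associated hP.1 hQ.1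
    (hP.2.associated_of_dvd hQ.2 hd))

theorem same_prime {P Q R : k[X]} (hP : P.Monic ∧ Irreducible P) (hQ : Q.Monic ∧ Irreducible Q)
    (hR : Irreducible R) (h : R ∣ P.comp f) (h' : R ∣ Q.comp f) : P = Q := by
  by_contra hne
  obtain ⟨a, b, hab⟩ := coprime_of_ne hP hQ hne
  have h1 := congrArg (fun g : k[X] => g.comp f) hab
  simp only [add_comp, mul_comp, one_comp] at h1
  exact hR.not_isUnit (isUnit_of_dvd_one (h1 ▸ dvd_add (h.mul_left _) (h'.mul_left _)))

theorem sum_degree {P : k[X]} (hd : f.natDegree = 3) (hP : P ≠ 0) :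
    ∑ R ∈ primes (P.comp f), R.natDegree ≤ 3 * P.natDegree := by
  have hPf := comp_ne hd hP
  have h1 : (∏ R ∈ primes (P.comp f), R) ∣ P.comp f := by
    apply Finset.prod_dvd_of_coprime
    · intro R hR S hS hn
      have hR1 := (mem_primes hPf R).1 hR
      have hS1 := (mem_primes hPf S).1 hS
      exact coprime_of_ne ⟨hR1.1, hR1.2.1⟩ ⟨hS1.1, hS1.2.1⟩ hn
    · intro R hR
      exact ((mem_primes hPf R).1 hR).2.2
  have h2 := natDegree_le_of_dvd h1 hPf
  rw [natDegree_prod_of_monic _ _ (fun R hR => ((mem_primes hPf R).1 hR).1), natDegree_comp, hd]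
    at h2
  omega

/-- the number of the primes over `P` -/
theorem card_split {P : k[X]} (hd : f.natDegree = 3) (hPm : P.Monic) (hP : Irreducible P) :
    2 * (primes (P.comp f)).card ≤ 3 + (ones f P).card := by
  have hPf := comp_ne hd hP.ne_zero
  have h1 := sum_degree (f := f) hd hP.ne_zero
  have h2 : ∀ R ∈ primes (P.comp f), 2 * P.natDegree ≤
      R.natDegree + if R.natDegree = P.natDegree then P.natDegree else 0 := by
    intro R hR
    have hR1 := (mem_primes hPf R).1 hR
    obtain ⟨c, hc⟩ := degree_dvd hPm hP hR1.2.1 hR1.2.2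
    have hR0 := hR1.2.1.natDegree_pos
    split_ifs with h
    · omega
    · have hc2 : 2 ≤ c := by
        rcases c with _ | _ | c
        · rw [mul_zero] at hc
          omega
        · rw [zero_add, mul_one] at hc
          exact absurd hc h
        · omega
      rw [add_zero, hc, mul_comm 2]
      exact Nat.mul_le_mul_left _ hc2
  have h3 := Finset.sum_le_sum h2
  rw [Finset.sum_const, Finset.sum_add_distrib, ← Finset.sum_filter, Finset.sum_const, smul_eq_mul,
    smul_eq_mul] at h3
  have h4 : (ones f P).card = ((primes (P.comp f)).filter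
    fun R => R.natDegree = P.natDegree).card := rfl
  rw [← h4] at h3
  have hP0 := hP.natDegree_pos
  refine Nat.le_of_mul_le_mul_right ?_ hP0
  nlinarith

theorem ones_le (f P : k[X]) : (ones f P).card ≤ (primes (P.comp f)).card :=
  Finset.card_filter_le _ _

theorem two_pow_le {P : k[X]} (hd : f.natDegree = 3) (hPm : P.Monic) (hP : Irreducible P) :
    2 ^ ((primes (P.comp f)).card - 1) ≤ 1 + (ones f P).card := by
  have h1 := card_split (f := f) hd hPm hP
  have h2 := ones_le f P
  generalize (primes (P.comp f)).card = s at *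
  generalize (ones f P).card = a at *
  have h3 : s ≤ 3 := by omega
  interval_cases s
  · simp
  · simp
  · simp
    omega
  · simp
    omega

theorem card_sub_le {P : k[X]} (hm : f.Monic) (hd : f.natDegree = 3) (hPm : P.Monic)
    (hP : Irreducible P) :
    2 * ((primes (P.comp f)).card - 1) + (if Irreducible (P.comp f) then 1 else 0) ≤
      1 + (ones f P).card := by
  have h1 := card_split (f := f) hd hPm hP
  split_ifs with h
  · rw [primes_of_irreducible (hPm.comp hm (by omega)) h, Finset.card_singleton]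
    omega
  · omega

/-- a prime which is not inert -/
theorem ones_pos {P : k[X]} (hd : f.natDegree = 3) (hPm : P.Monic) (hP : Irreducible P)
    (hni : ¬ Irreducible (P.comp f)) : 1 ≤ (ones f P).card := by
  have h1 := card_split (f := f) hd hPm hP
  by_contra hcon
  have h0 : (ones f P).card = 0 := by omega
  have hs : (primes (P.comp f)).card ≤ 1 := by omega
  have hPf := comp_ne hd hP.ne_zero
  have hdeg : (P.comp f).natDegree = P.natDegree * 3 := by rw [natDegree_comp, hd]
  have hP0 := hP.natDegree_pos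
  have hnu : ¬ IsUnit (P.comp f) := by
    intro h
    have := natDegree_eq_zero_of_isUnit h
    omega
  obtain ⟨R, hR, Z, hZ⟩ := WfDvdMonoid.exists_irreducible_factor hnu hPf
  have hZ0 : Z ≠ 0 := by
    rintro rfl
    rw [mul_zero] at hZ
    exact hPf hZ
  have hZu : ¬ IsUnit Z := by
    intro h
    apply hni
    rw [hZ]
    exact (irreducible_mul_isUnit h).2 hR
  obtain ⟨S, hS, Y, hY⟩ := WfDvdMonoid.exists_irreducible_factor hZu hZ0
  have hY0 : Y ≠ 0 := by
    rintro rfl
    rw [mul_zero] at hY
    exact hZ0 hY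
  obtain ⟨R1, δ, hδ, hR1⟩ := exists_MI_eq hR
  obtain ⟨S1, δ', hδ', hS1⟩ := exists_MI_eq hS
  have hR1m : R1.1 ∈ primes (P.comp f) := (mem_primes hPf _).2 ⟨R1.2.1, R1.2.2,
    Dvd.intro_left (C δ * Z) (by rw [hZ, hR1]; ring)⟩
  have hS1m : S1.1 ∈ primes (P.comp f) := (mem_primes hPf _).2 ⟨S1.2.1, S1.2.2,
    Dvd.intro_left (R * (C δ' * Y)) (by rw [hZ, hY, hS1]; ring)⟩
  have e := Finset.card_le_one.1 hs _ hR1m _ hS1m
  have d1 : R.natDegree = R1.1.natDegree := by
    rw [hR1, natDegree_C_mul hδ]
  have d2 : S.natDegree = R1.1.natDegree := by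
    rw [hS1, natDegree_C_mul hδ', e]
  have d3 : (P.comp f).natDegree = R.natDegree + (S.natDegree + Y.natDegree) := by
    rw [hZ, natDegree_mul hR.ne_zero hZ0, hY, natDegree_mul hS.ne_zero hY0]
  obtain ⟨c, hc⟩ := degree_dvd hPm hP R1.2.2 ((mem_primes hPf _).1 hR1m).2.2
  have hc1 : c < 2 := by
    by_contra hc2
    have hc3 : 2 ≤ c := by omega
    have h5 : P.natDegree * 2 ≤ P.natDegree * c := Nat.mul_le_mul_left _ hc3
    omega
  have hR10 := R1.2.2.natDegree_pos
  have hc4 : R1.1.natDegree = P.natDegree := by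
    rcases c with _ | _ | c
    · rw [mul_zero] at hc
      omega
    · rw [zero_add, mul_one] at hc
      exact hc
    · omega
  have h7 : R1.1 ∈ ones f P := Finset.mem_filter.2 ⟨hR1m, hc4⟩
  rw [Finset.card_eq_zero.1 h0] at h7
  exact absurd h7 (Finset.notMem_empty _)

/-- the numbers of the primes over `P` of the three kinds -/
theorem card_kind {P : k[X]} (hd : f.natDegree = 3) (hPm : P.Monic) (hP : Irreducible P) :
    1 + 2 * (if 2 < (primes (P.comp f)).card then 1 else 0) ≤
      (ones f P).card + (if Irreducible (P.comp f) then 1 else 0) := by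
  have h1 := card_split (f := f) hd hPm hP
  split_ifs with h2 h3 h3
  · omega
  · omega
  · omega
  · have := ones_pos hd hPm hP h3
    omega

theorem card_one_of {P : k[X]} (hm : f.Monic) (hd : f.natDegree = 3) (hPm : P.Monic)
    (h : Irreducible (P.comp f)) : (primes (P.comp f)).card - 1 = 0 := by
  rw [primes_of_irreducible (hPm.comp hm (by omega)) h, Finset.card_singleton]

/-- the primes of degree `N` -/
def irr (k : Type) [Field k] (N : ℕ) : Set k[X] := {P | P.Monic ∧ Irreducible P ∧ P.natDegree = N}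

theorem irr_finite [Finite k] (N : ℕ) : (irr k N).Finite :=
  (Pool.Agent.W313.Hyp.finite_mon (F := k) N).subset fun _ hP => ⟨hP.1, hP.2.2⟩

/-- the primes of degree `N` over primes of degree `N` -/
theorem sum_ones [Finite k] (hd : f.natDegree = 3) (N : ℕ) :
    ∑ P ∈ (irr_finite (k := k) N).toFinset, (ones f P).card ≤ (irr k N).ncard := by
  rw [Set.ncard_eq_toFinset_card _ (irr_finite N), ← Finset.card_biUnion]
  · refine Finset.card_le_card fun R hR => ?_
    rw [Finset.mem_biUnion] at hR
    obtain ⟨P, hP, hRP⟩ := hR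
    rw [Set.Finite.mem_toFinset] at hP ⊢
    have h1 := Finset.mem_filter.1 hRP
    have h2 := (mem_primes (comp_ne hd hP.2.1.ne_zero) R).1 h1.1
    exact ⟨h2.1, h2.2.1, h1.2.trans hP.2.2⟩
  · intro P hP Q hQ hne
    show Disjoint (ones f P) (ones f Q)
    rw [Finset.disjoint_left]
    intro R hRP hRQ
    rw [Finset.mem_coe, Set.Finite.mem_toFinset] at hP hQ
    have h1 := (mem_primes (comp_ne hd hP.2.1.ne_zero) R).1 (Finset.mem_filter.1 hRP).1
    have h2 := (mem_primes (comp_ne hd hQ.2.1.ne_zero) R).1 (Finset.mem_filter.1 hRQ).1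
    exact hne (same_prime ⟨hP.1, hP.2.1⟩ ⟨hQ.1, hQ.2.1⟩ h1.2.1 h1.2.2 h2.2.2)

end split

section bound

variable {k K : Type} [Field k] [Field K] [Algebra k[X] K] [IsFractionRing k[X] K]
  {f : k[X]}

theorem index_prime (hm : f.Monic) (hd : f.natDegree = 3) (h2 : (2 : k) ≠ 0) {P : k[X]}
    (hPm : P.Monic) (hP : Irreducible P) {u : k} (hu : u ≠ 0) :
    indexTwo (Pts (curve K f (C u * P))) ≠ 0 ∧ indexTwo (Pts (curve K f (C u * P))) ≤
      2 ^ ((primes (P.comp f)).card - 1) := by
  have h1 := index_bound (K := K) hm hd h2 (mul_ne_zero (C_ne_zero.2 hu) hP.ne_zero)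
  rw [primes_const hu ⟨P, hPm, hP⟩, Finset.sum_singleton] at h1
  exact h1

variable [Finite k]

/-- the average over the primes of degree `N` -/
theorem sum_index (hm : f.Monic) (hd : f.natDegree = 3) (h2 : (2 : k) ≠ 0) {u : k[X] → k}
    (hu : ∀ P, u P ≠ 0) (N : ℕ) :
    ∑ P ∈ (irr_finite (k := k) N).toFinset, indexTwo (Pts (curve K f (C (u P) * P))) ≤
      2 * (irr k N).ncard := by
  have h1 := sum_ones (f := f) hd N
  have h3 : ∑ P ∈ (irr_finite (k := k) N).toFinset, indexTwo (Pts (curve K f (C (u P) * P))) ≤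
      ∑ P ∈ (irr_finite (k := k) N).toFinset, (1 + (ones f P).card) := by
    refine Finset.sum_le_sum fun P hP => ?_
    rw [Set.Finite.mem_toFinset] at hP
    exact (index_prime (K := K) hm hd h2 hP.1 hP.2.1 (hu P)).2.trans (two_pow_le hd hP.1 hP.2.1)
  rw [Finset.sum_add_distrib, Finset.sum_const, smul_eq_mul, mul_one,
    ← Set.ncard_eq_toFinset_card _ (irr_finite N)] at h3
  omega

/-- the sum of the numbers of the primes over the primes of degree `N` -/
theorem sum_split (hm : f.Monic) (hd : f.natDegree = 3) (N : ℕ) :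
    2 * ∑ P ∈ (irr_finite (k := k) N).toFinset, ((primes (P.comp f)).card - 1) +
      {P ∈ irr k N | Irreducible (P.comp f)}.ncard ≤ 2 * (irr k N).ncard := by
  have h1 := sum_ones (f := f) hd N
  have h3 : ∑ P ∈ (irr_finite (k := k) N).toFinset, (2 * ((primes (P.comp f)).card - 1) +
      (if Irreducible (P.comp f) then 1 else 0)) ≤
      ∑ P ∈ (irr_finite (k := k) N).toFinset, (1 + (ones f P).card) := by
    refine Finset.sum_le_sum fun P hP => ?_
    rw [Set.Finite.mem_toFinset] at hP
    exact card_sub_le hm hd hP.1 hP.2.1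
  rw [Finset.sum_add_distrib, Finset.sum_add_distrib, ← Finset.mul_sum, Finset.sum_const,
    smul_eq_mul, mul_one, ← Set.ncard_eq_toFinset_card _ (irr_finite N), ← Finset.card_filter] at h3
  have h4 : {P ∈ irr k N | Irreducible (P.comp f)}.ncard =
      ((irr_finite (k := k) N).toFinset.filter fun P => Irreducible (P.comp f)).card := by
    rw [← Set.ncard_coe_finset]
    congr 1
    ext P
    simp
  omega

/-- the primes with three primes over them -/
theorem count_three (hd : f.natDegree = 3) (N : ℕ) :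
    2 * {P ∈ irr k N | 2 < (primes (P.comp f)).card}.ncard ≤
      {P ∈ irr k N | Irreducible (P.comp f)}.ncard := by
  have h1 := sum_ones (f := f) hd N
  have h3 : ∑ P ∈ (irr_finite (k := k) N).toFinset,
      (1 + 2 * (if 2 < (primes (P.comp f)).card then 1 else 0)) ≤
      ∑ P ∈ (irr_finite (k := k) N).toFinset,
        ((ones f P).card + (if Irreducible (P.comp f) then 1 else 0)) := by
    refine Finset.sum_le_sum fun P hP => ?_
    rw [Set.Finite.mem_toFinset] at hP
    exact card_kind hd hP.1 hP.2.1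
  rw [Finset.sum_add_distrib, Finset.sum_add_distrib, ← Finset.mul_sum, Finset.sum_const,
    smul_eq_mul, mul_one, ← Set.ncard_eq_toFinset_card _ (irr_finite N), ← Finset.card_filter,
    ← Finset.card_filter] at h3
  have h4 : {P ∈ irr k N | Irreducible (P.comp f)}.ncard =
      ((irr_finite (k := k) N).toFinset.filter fun P => Irreducible (P.comp f)).card := by
    rw [← Set.ncard_coe_finset]
    congr 1
    ext P
    simp
  have h5 : {P ∈ irr k N | 2 < (primes (P.comp f)).card}.ncard =
      ((irr_finite (k := k) N).toFinset.filter fun P => 2 < (primes (P.comp f)).card).card := by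
    rw [← Set.ncard_coe_finset]
    congr 1
    ext P
    simp
  omega

/-- the primes for which the number of the classes exceeds two -/
theorem count_index (hm : f.Monic) (hd : f.natDegree = 3) (h2 : (2 : k) ≠ 0) {u : k[X] → k}
    (hu : ∀ P, u P ≠ 0) (N : ℕ) :
    2 * {P ∈ irr k N | 2 < indexTwo (Pts (curve K f (C (u P) * P)))}.ncard ≤
      {P ∈ irr k N | Irreducible (P.comp f)}.ncard := by
  refine le_trans (Nat.mul_le_mul_left 2 (Set.ncard_le_ncard ?_ ((irr_finite N).subset
    fun P hP => hP.1))) (count_three hd N)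
  rintro P ⟨hP, hP2⟩
  refine ⟨hP, ?_⟩
  have h1 := (index_prime (K := K) hm hd h2 hP.1 hP.2.1 (hu P)).2
  by_contra h3
  have h4 : (primes (P.comp f)).card - 1 ≤ 1 := by omega
  have h5 := Nat.pow_le_pow_right (n := 2) two_pos h4
  omega

omit [Finite k] in
theorem index_le_four (hm : f.Monic) (hd : f.natDegree = 3) (h2 : (2 : k) ≠ 0) {P : k[X]}
    (hPm : P.Monic) (hP : Irreducible P) {u : k} (hu : u ≠ 0) :
    indexTwo (Pts (curve K f (C u * P))) ≤ 4 := by
  have h1 := (index_prime (K := K) hm hd h2 hPm hP hu).2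
  have h3 := card_split (f := f) hd hPm hP
  have h4 := ones_le f P
  have h5 : (primes (P.comp f)).card - 1 ≤ 2 := by omega
  have h6 := Nat.pow_le_pow_right (n := 2) two_pos h5
  omega

end bound

end Pool.Agent.X261.TD
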