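import Pool.Agent.X261.TD.Nrm

/-!
The classes modulo squares which are even away from `D(f(x))` and have a square norm.
-/

set_option autoImplicit false

open Polynomial
open scoped Classical

namespace Pool.Agent.X261.TD

open Pool.Agent.X261.TW Pool.Agent.TH943.HJ

section poly

variable {k : Type} [Field k]

theorem mult_one {P : k[X]} (hP : Irreducible P) : multiplicity P P = 1 := by
  have h5 : ¬ P ^ 2 ∣ P := by
    intro h6
    have h7 := natDegree_le_of_dvd h6 hP.ne_zero
    rw [natDegree_pow] at h7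
    have := hP.natDegree_pos
    omega
  exact multiplicity_eq_of_dvd_of_not_dvd (by rw [pow_one]) h5

theorem mult_assoc {P Q Z : k[X]} (h : Associated P Q) : multiplicity P Z = multiplicity Q Z :=
  multiplicity_eq_of_associated_left h.symm

/-- the multiplicity of a prime in a product of distinct monic primes -/
theorem mult_prod {A : Finset k[X]} (hA : ∀ R ∈ A, R.Monic ∧ Irreducible R) {Q : k[X]}
    (hQ : Irreducible Q) (hQm : Q.Monic) :
    multiplicity Q (∏ R ∈ A, R) = if Q ∈ A then 1 else 0 := by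
  induction A using Finset.induction_on with
  | empty =>
    rw [Finset.prod_empty, if_neg (Finset.notMem_empty Q), mult_zero]
    intro h
    exact hQ.not_isUnit (isUnit_of_dvd_one h)
  | insert R A hR ih =>
    have hR1 := hA R (Finset.mem_insert_self R A)
    have hne : ∏ R ∈ A, R ≠ 0 := Finset.prod_ne_zero_iff.2 fun S hS =>
      (hA S (Finset.mem_insert_of_mem hS)).2.ne_zero
    rw [Finset.prod_insert hR, mult_mul hQ hR1.2.ne_zero hne,
      ih fun S hS => hA S (Finset.mem_insert_of_mem hS)]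
    by_cases hQR : Q = R
    · subst hQR
      rw [mult_one hQ, if_neg hR, if_pos (Finset.mem_insert_self Q A)]
    · have h1 : ¬ Q ∣ R := fun h => hQR (eq_of_monic_of_associated hQm hR1.1
        (hQ.associated_of_dvd hR1.2 h))
      rw [mult_zero h1, zero_add]
      by_cases hQA : Q ∈ A
      · rw [if_pos hQA, if_pos (Finset.mem_insert_of_mem hQA)]
      · rw [if_neg hQA, if_neg]
        rw [Finset.mem_insert, not_or]
        exact ⟨hQR, hQA⟩

theorem monic_ne {A : Finset k[X]} (hA : ∀ R ∈ A, R.Monic ∧ Irreducible R) :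
    ∏ R ∈ A, R ≠ 0 := Finset.prod_ne_zero_iff.2 fun S hS => (hA S hS).2.ne_zero

/-- a polynomial with odd multiplicities only at the primes in `A` -/
theorem rep_set {h : k[X]} (h0 : h ≠ 0) {A : Finset k[X]}
    (hA : ∀ R ∈ A, R.Monic ∧ Irreducible R)
    (hodd : ∀ Q : k[X], Q.Monic → Irreducible Q → (Q ∈ A ↔ ¬ Even (multiplicity Q h))) :
    ∃ (v : k) (H : k[X]), v ≠ 0 ∧ H ≠ 0 ∧ (∏ R ∈ A, R) * h = C v * H ^ 2 := by
  have hne := monic_ne hA
  have h1 : EvenOff 1 ((∏ R ∈ A, R) * h) := by
    refine evenOff_of (mul_ne_zero hne h0) fun Q hQ _ => ?_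
    obtain ⟨Q1, δ, hδ, hQ1⟩ := exists_MI_eq hQ
    have hass : Associated Q Q1.1 := by
      rw [hQ1]
      exact (associated_unit_mul_left _ _ (isUnit_C.2 (isUnit_iff_ne_zero.2 hδ)))
    rw [mult_assoc hass, mult_mul Q1.2.2 hne h0, mult_prod hA Q1.2.2 Q1.2.1]
    have h2 := hodd Q1.1 Q1.2.1 Q1.2.2
    by_cases h3 : Q1.1 ∈ A
    · rw [if_pos h3]
      have h4 := Nat.not_even_iff_odd.1 (h2.1 h3)
      exact odd_one.add_odd h4
    · rw [if_neg h3, zero_add]
      by_contra h4
      exact h3 (h2.2 h4)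
  obtain ⟨n, E, H, hE, hEH⟩ := h1
  rw [one_pow] at hE
  obtain ⟨v, hv, rfl⟩ := isUnit_iff.1 (isUnit_of_dvd_one hE)
  refine ⟨v, H, hv.ne_zero, ?_, hEH⟩
  rintro rfl
  rw [zero_pow two_ne_zero, mul_zero] at hEH
  exact mul_ne_zero hne h0 hEH

/-- the primes over the prime divisors of `D`, except for one over each of them -/
noncomputable def others (f D : k[X]) (r : k[X] → k[X]) : Finset k[X] :=
  (primes D).biUnion fun P => (primes (P.comp f)).erase (r P)

theorem card_others {f D : k[X]} {r : k[X] → k[X]}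
    (hr : ∀ P ∈ primes D, r P ∈ primes (P.comp f)) :
    (others f D r).card ≤ ∑ P ∈ primes D, ((primes (P.comp f)).card - 1) := by
  unfold others
  refine Finset.card_biUnion_le.trans (Finset.sum_le_sum fun P hP => ?_)
  rw [Finset.card_erase_of_mem (hr P hP)]

theorem mem_others {f D : k[X]} (hd : f.natDegree = 3) (hD : D ≠ 0) {r : k[X] → k[X]}
    {R : k[X]} (hR : R.Monic) (hRi : Irreducible R) (hRD : R ∣ D.comp f)
    (hno : R ∉ others f D r) : ∃ P ∈ primes D, R = r P := by
  have key : ∀ (n : ℕ) (Z : k[X]), Z.natDegree = n → Z ∣ D → Z ≠ 0 → R ∣ Z.comp f →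
      ∃ P ∈ primes D, R ∣ P.comp f := by
    intro n
    induction n using Nat.strong_induction_on with
    | _ n ih =>
      intro Z hn hZ hZ0 hRZ
      by_cases hu : IsUnit Z
      · obtain ⟨v, hv, rfl⟩ := isUnit_iff.1 hu
        rw [C_comp] at hRZ
        exact absurd (isUnit_of_dvd_unit hRZ hu) hRi.not_isUnit
      · obtain ⟨P, hP, Z', hZ'⟩ := WfDvdMonoid.exists_irreducible_factor hu hZ0
        have hZ'0 : Z' ≠ 0 := by
          rintro rfl
          rw [mul_zero] at hZ'
          exact hZ0 hZ'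
        rw [hZ', mul_comp] at hRZ
        rcases hRi.prime.dvd_or_dvd hRZ with h1 | h1
        · obtain ⟨P1, δ, hδ, hP1⟩ := exists_MI_eq hP
          refine ⟨P1.1, (mem_primes hD _).2 ⟨P1.2.1, P1.2.2, ?_⟩, ?_⟩
          · refine (Dvd.intro_left (C δ * Z') ?_ : P1.1 ∣ Z).trans hZ
            rw [hZ', hP1]
            ring
          · rw [hP1, mul_comp, C_comp] at h1
            rcases hRi.prime.dvd_or_dvd h1 with h2 | h2
            · exact absurd (isUnit_of_dvd_unit h2 (isUnit_C.2 (isUnit_iff_ne_zero.2 hδ)))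
                hRi.not_isUnit
            · exact h2
        · exact ih Z'.natDegree (by
            rw [← hn, hZ', natDegree_mul hP.ne_zero hZ'0]
            have := hP.natDegree_pos
            omega) Z' rfl ((Dvd.intro_left P hZ'.symm).trans hZ) hZ'0 h1
  obtain ⟨P, hP, hRP⟩ := key _ D rfl dvd_rfl hD hRD
  have hP1 := (mem_primes hD P).1 hP
  refine ⟨P, hP, ?_⟩
  by_contra hne
  apply hno
  unfold others
  rw [Finset.mem_biUnion]
  exact ⟨P, hP, Finset.mem_erase.2 ⟨hne, (mem_primes (comp_ne hd hP1.2.1.ne_zero) R).2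
    ⟨hR, hRi, hRP⟩⟩⟩

end poly

section main

variable {k K L : Type} [Field k] [Field K] [Field L] [Algebra k[X] K] [IsFractionRing k[X] K]
  [Algebra k[X] L] [IsFractionRing k[X] L] [Algebra K L] {f D : k[X]}

theorem odd_add_even {a b c d : ℕ} (h : a + 2 * b = 2 * c + 2 * d) : Even a := by
  rw [Nat.even_iff]
  omega

/-- the choice of a prime over each `P` with a norm of odd exponent -/
def IsChoice (K L : Type) [Field K] [Field L] [Algebra k[X] K] [IsFractionRing k[X] K]
    [Algebra k[X] L] [IsFractionRing k[X] L] [Algebra K L] (f D : k[X]) (r : k[X] → k[X]) : Prop :=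
  ∀ P ∈ primes D, r P ∈ primes (P.comp f) ∧ ¬ Even (multiplicity P (nm K L (r P)))

theorem exists_choice (hc : IsCover K L f) (hm : f.Monic) (hd : f.natDegree = 3) (hD : D ≠ 0) :
    ∃ r : k[X] → k[X], IsChoice K L f D r := by
  have h : ∀ P : k[X], ∃ R : k[X], P ∈ primes D → R ∈ primes (P.comp f) ∧
      ¬ Even (multiplicity P (nm K L R)) := by
    intro P
    by_cases hP : P ∈ primes D
    · obtain ⟨R, h1, h2⟩ := exists_odd (K := K) (L := L) hc hm hd ((mem_primes hD P).1 hP).2.1
      exact ⟨R, fun _ => ⟨h1, h2⟩⟩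
    · exact ⟨0, fun h => absurd h hP⟩
  choose r hr using h
  exact ⟨r, fun P hP => hr P hP⟩

theorem square_of (hc : IsCover K L f) (hm : f.Monic) (hd : f.natDegree = 3) (hD : D ≠ 0)
    {r : k[X] → k[X]} (hr : IsChoice K L f D r) {h : k[X]} (h0 : h ≠ 0)
    (hev : EvenOff (D.comp f) h) {s : K} (hs : Algebra.norm K (algebraMap k[X] L h) = s ^ 2)
    (hoth : ∀ R ∈ others f D r, Even (multiplicity R h)) : ∃ H : k[X], h = H ^ 2 := by
  have hDf := comp_ne hd hD
  set A := (primes (D.comp f)).filter fun R => ¬ Even (multiplicity R h) with hAdef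
  have hA : ∀ R ∈ A, R.Monic ∧ Irreducible R := fun R hR =>
    ⟨((mem_primes hDf R).1 (Finset.mem_filter.1 hR).1).1,
      ((mem_primes hDf R).1 (Finset.mem_filter.1 hR).1).2.1⟩
  have hodd : ∀ Q : k[X], Q.Monic → Irreducible Q → (Q ∈ A ↔ ¬ Even (multiplicity Q h)) := by
    intro Q hQm hQ
    rw [hAdef, Finset.mem_filter, mem_primes hDf]
    constructor
    · exact fun h => h.2
    · intro h1
      refine ⟨⟨hQm, hQ, ?_⟩, h1⟩
      by_contra h2
      exact h1 (hev.even h0 hQ h2)
  obtain ⟨v, H, hv, hH, e1⟩ := rep_set h0 hA hodd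
  obtain ⟨a, b, hb, hab⟩ := exists_frac (k := k) K s
  have hN : nm K L h * b ^ 2 = a ^ 2 := by
    apply inj_frac K
    rw [map_mul, nm_spec hc hm hd, hs, map_pow, map_pow, ← hab, mul_pow]
  have hNh := nm_ne (K := K) (L := L) hc hm hd h0
  have hNH := nm_ne (K := K) (L := L) hc hm hd hH
  have ha : a ≠ 0 := by
    rintro rfl
    rw [zero_pow two_ne_zero] at hN
    exact mul_ne_zero hNh (pow_ne_zero 2 hb) hN
  have e2 : nm K L (∏ R ∈ A, R) * nm K L h = C (v ^ 3) * nm K L H ^ 2 := by
    rw [← nm_mul hc hm hd, e1, nm_mul hc hm hd, nm_C hc hm hd, pow_two H, nm_mul hc hm hd]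
    ring
  have e3 : nm K L (∏ R ∈ A, R) * a ^ 2 = C (v ^ 3) * (nm K L H ^ 2 * b ^ 2) := by
    rw [← hN]
    linear_combination b ^ 2 * e2
  have hv3 : v ^ 3 ≠ 0 := pow_ne_zero 3 hv
  by_cases hemp : A = ∅
  · rw [hemp, Finset.prod_empty] at e1 e3
    have hone : nm K L (1 : k[X]) = 1 := by
      have := nm_C (K := K) (L := L) hc hm hd 1
      rwa [one_pow, C_1] at this
    rw [hone, one_mul] at e3
    have h3 := congrArg leadingCoeff e3
    rw [← mul_pow, leadingCoeff_mul, leadingCoeff_C, leadingCoeff_pow, leadingCoeff_pow] at h3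
    have hl : (nm K L H * b).leadingCoeff ≠ 0 :=
      leadingCoeff_ne_zero.2 (mul_ne_zero hNH hb)
    set w := a.leadingCoeff / (v * (nm K L H * b).leadingCoeff) with hw
    have hvw : v = w ^ 2 := by
      rw [hw, div_pow, h3]
      field_simp
    refine ⟨C w * H, ?_⟩
    rw [one_mul] at e1
    rw [e1, mul_pow, ← C_pow, ← hvw]
  · exfalso
    obtain ⟨R0, hR0⟩ := Finset.nonempty_iff_ne_empty.2 hemp
    have hex : ∀ R ∈ A, ∃ P ∈ primes D, R = r P := by
      intro R hR
      have h1 := Finset.mem_filter.1 hR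
      have h2 := (mem_primes hDf R).1 h1.1
      exact mem_others hd hD h2.1 h2.2.1 h2.2.2 fun h3 => h1.2 (hoth R h3)
    obtain ⟨P0, hP0, rfl⟩ := hex R0 hR0
    have hP0' := (mem_primes hD P0).1 hP0
    have hNr : nm K L (r P0) ≠ 0 := nm_ne hc hm hd (hA _ hR0).2.ne_zero
    have hprod : ¬ P0 ∣ nm K L (∏ R ∈ A.erase (r P0), R) := by
      have key : ∀ B : Finset k[X], B ⊆ A.erase (r P0) → ¬ P0 ∣ nm K L (∏ R ∈ B, R) := by
        intro B
        induction B using Finset.induction_on with
        | empty =>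
          intro _ h
          have hone : nm K L (1 : k[X]) = 1 := by
            have := nm_C (K := K) (L := L) hc hm hd 1
            rwa [one_pow, C_1] at this
          rw [Finset.prod_empty, hone] at h
          exact hP0'.2.1.not_isUnit (isUnit_of_dvd_one h)
        | insert R B hR ih =>
          intro hB h
          rw [Finset.prod_insert hR, nm_mul hc hm hd] at h
          rcases hP0'.2.1.prime.dvd_or_dvd h with h1 | h1
          · have hRA := Finset.mem_erase.1 (hB (Finset.mem_insert_self R B))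
            obtain ⟨P, hP, rfl⟩ := hex R hRA.2
            have hP' := (mem_primes hD P).1 hP
            have h2 := (hr P hP).1
            have h3 := (mem_primes (comp_ne hd hP'.2.1.ne_zero) _).1 h2
            have h4 := hP0'.2.1.prime.dvd_of_dvd_pow (h1.trans (nm_dvd hc hm hd h3.2.2))
            have h5 := eq_of_monic_of_associated hP0'.1 hP'.1
              (hP0'.2.1.associated_of_dvd hP'.2.1 h4)
            exact hRA.1 (by rw [h5])
          · exact ih (fun S hS => hB (Finset.mem_insert_of_mem hS)) h1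
      exact key _ Finset.Subset.rfl
    have hne2 : nm K L (∏ R ∈ A.erase (r P0), R) ≠ 0 := nm_ne hc hm hd
      (monic_ne fun R hR => hA R (Finset.mem_of_mem_erase hR))
    have h1 := congrArg (multiplicity P0) e3
    have h2 : ¬ P0 ∣ C (v ^ 3) := fun h3 => hP0'.2.1.not_isUnit
      (isUnit_of_dvd_unit h3 (isUnit_C.2 (isUnit_iff_ne_zero.2 hv3)))
    rw [← Finset.mul_prod_erase A _ hR0, nm_mul hc hm hd,
      mult_mul hP0'.2.1 (mul_ne_zero hNr hne2) (pow_ne_zero 2 ha),
      mult_mul hP0'.2.1 hNr hne2, mult_zero hprod, add_zero, mult_sq hP0'.2.1 ha,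
      mult_mul hP0'.2.1 (C_ne_zero.2 hv3) (mul_ne_zero (pow_ne_zero 2 hNH) (pow_ne_zero 2 hb)),
      mult_zero h2, zero_add, mult_mul hP0'.2.1 (pow_ne_zero 2 hNH) (pow_ne_zero 2 hb),
      mult_sq hP0'.2.1 hNH, mult_sq hP0'.2.1 hb] at h1
    exact (hr P0 hP0).2 (odd_add_even h1)

end main

end Pool.Agent.X261.TD
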