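import Pool.Agent.X261.TW.Ord

/-!
The norms of polynomials in `x` from `k(x)` to `k(t)`, `t = f(x)`.
-/

set_option autoImplicit false

open Polynomial
open scoped Classical

namespace Pool.Agent.X261.TD

open Pool.Agent.X261.TW Pool.Agent.TH943.HJ

section gen

variable {K L : Type} [Field K] [Field L] [Algebra K L] {c2 c1 c0 : K} {θ : L}

/-- the matrix of the multiplication with `θ` -/
theorem mulMatrix (h : IsGen c2 c1 c0 θ) : Algebra.leftMulMatrix (bas h) θ =
    !![0, 0, -c0; 1, 0, -c1; 0, 1, -c2] := by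
  have hrepr : ∀ (s : L) (a b c : K),
      s = algebraMap K L a + algebraMap K L b * θ + algebraMap K L c * θ ^ 2 →
      (bas h).repr s 0 = a ∧ (bas h).repr s 1 = b ∧ (bas h).repr s 2 = c := by
    intro s a b c hs
    have e : s = ∑ i : Fin 3, (![a, b, c] i) • bas h i := by
      rw [hs]
      simp [Fin.sum_univ_three, bas_apply, Algebra.smul_def]
    rw [e]
    refine ⟨?_, ?_, ?_⟩ <;> rw [(bas h).repr_sum_self] <;> rfl
  have m0 := hrepr (θ * bas h 0) 0 1 0 (by
    rw [bas_apply]
    simp)
  have m1 := hrepr (θ * bas h 1) 0 0 1 (by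
    rw [bas_apply]
    simp
    ring)
  have m2 := hrepr (θ * bas h 2) (-c0) (-c1) (-c2) (by
    rw [bas_apply]
    simp
    linear_combination h.root)
  ext i j
  rw [Algebra.leftMulMatrix_eq_repr_mul]
  fin_cases j
  · fin_cases i
    · exact m0.1
    · exact m0.2.1
    · exact m0.2.2
  · fin_cases i
    · exact m1.1
    · exact m1.2.1
    · exact m1.2.2
  · fin_cases i
    · exact m2.1
    · exact m2.2.1
    · exact m2.2.2

end gen

section norm

variable {k K L : Type} [Field k] [Field K] [Field L] [Algebra k[X] K] [IsFractionRing k[X] K]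
  [Algebra k[X] L] [IsFractionRing k[X] L] [Algebra K L] {f : k[X]}

theorem matrix_poly (hc : IsCover K L f) (hm : f.Monic) (hd : f.natDegree = 3) (g : k[X]) :
    ∃ G : Matrix (Fin 3) (Fin 3) k[X],
      Algebra.leftMulMatrix (bas (isGen hc hm hd)) (algebraMap k[X] L g) =
        G.map (algebraMap k[X] K) := by
  induction g using Polynomial.induction_on' with
  | add p q hp hq =>
    obtain ⟨P, hP⟩ := hp
    obtain ⟨Q, hQ⟩ := hq
    refine ⟨P + Q, ?_⟩
    rw [map_add, map_add, hP, hQ, Matrix.map_add _ (map_add _)]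
  | monomial n a =>
    rw [← C_mul_X_pow_eq_monomial, map_mul, map_pow, map_mul, map_pow, mulMatrix]
    have h1 : algebraMap k[X] L (C a) = algebraMap K L (algebraMap k[X] K (C a)) := by
      rw [hc, C_comp]
    refine ⟨algebraMap k[X] (Matrix (Fin 3) (Fin 3) k[X]) (C a) *
      (!![0, 0, -(C (f.coeff 0) - X); 1, 0, -(C (f.coeff 1)); 0, 1, -(C (f.coeff 2))] :
        Matrix (Fin 3) (Fin 3) k[X]) ^ n, ?_⟩
    rw [h1, AlgHom.commutes]
    have h2 : ∀ (A B : Matrix (Fin 3) (Fin 3) k[X]), (A * B).map (algebraMap k[X] K) =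
        A.map (algebraMap k[X] K) * B.map (algebraMap k[X] K) := fun A B => Matrix.map_mul
    have h3 : ∀ (A : Matrix (Fin 3) (Fin 3) k[X]) (m : ℕ), (A ^ m).map (algebraMap k[X] K) =
        A.map (algebraMap k[X] K) ^ m := fun A m => map_pow (algebraMap k[X] K).mapMatrix A m
    rw [h2, h3]
    congr 1
    · ext i j
      rw [Matrix.algebraMap_matrix_apply, Matrix.map_apply, Matrix.algebraMap_matrix_apply]
      split_ifs
      · rfl
      · rw [map_zero]
    · congr 1
      ext i j
      rw [Matrix.map_apply]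
      fin_cases i <;> fin_cases j <;> simp

theorem exists_norm (hc : IsCover K L f) (hm : f.Monic) (hd : f.natDegree = 3) (g : k[X]) :
    ∃ z : k[X], Algebra.norm K (algebraMap k[X] L g) = algebraMap k[X] K z := by
  obtain ⟨G, hG⟩ := matrix_poly hc hm hd g
  refine ⟨G.det, ?_⟩
  rw [Algebra.norm_eq_matrix_det (bas (isGen hc hm hd)), hG]
  exact ((algebraMap k[X] K).map_det G).symm

/-- The norm of a polynomial. -/
noncomputable def nm (K L : Type) [Field K] [Field L] [Algebra k[X] K] [IsFractionRing k[X] K]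
    [Algebra k[X] L] [IsFractionRing k[X] L] [Algebra K L] (g : k[X]) : k[X] :=
  if h : ∃ z : k[X], Algebra.norm K (algebraMap k[X] L g) = algebraMap k[X] K z then h.choose
  else 0

theorem nm_spec (hc : IsCover K L f) (hm : f.Monic) (hd : f.natDegree = 3) (g : k[X]) :
    algebraMap k[X] K (nm K L g) = Algebra.norm K (algebraMap k[X] L g) := by
  have h := exists_norm hc hm hd g
  unfold nm
  rw [dif_pos h]
  exact h.choose_spec.symm

theorem nm_mul (hc : IsCover K L f) (hm : f.Monic) (hd : f.natDegree = 3) (g h : k[X]) :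
    nm K L (g * h) = nm K L g * nm K L h := by
  apply inj_frac K
  rw [map_mul, nm_spec hc hm hd, nm_spec hc hm hd, nm_spec hc hm hd, map_mul, map_mul]

theorem nm_comp (hc : IsCover K L f) (hm : f.Monic) (hd : f.natDegree = 3) (P : k[X]) :
    nm K L (P.comp f) = P ^ 3 := by
  apply inj_frac K
  rw [nm_spec hc hm hd, ← hc, (isGen hc hm hd).norm_map, map_pow]

theorem nm_C (hc : IsCover K L f) (hm : f.Monic) (hd : f.natDegree = 3) (v : k) :
    nm K L (C v) = C (v ^ 3) := by
  have := nm_comp hc hm hd (C v)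
  rwa [C_comp, ← C_pow] at this

theorem nm_ne (hc : IsCover K L f) (hm : f.Monic) (hd : f.natDegree = 3) {g : k[X]} (hg : g ≠ 0) :
    nm K L g ≠ 0 := by
  intro h
  have hfin : FiniteDimensional K L :=
    Module.Basis.finiteDimensional_of_finite (bas (isGen hc hm hd))
  have h1 := nm_spec hc hm hd g
  rw [h, map_zero] at h1
  exact Algebra.norm_ne_zero_iff.2 ((map_ne_zero_iff _ (inj_frac L)).2 hg) h1.symm

theorem comp_ne (hd : f.natDegree = 3) {P : k[X]} (hP : P ≠ 0) : P.comp f ≠ 0 := by
  intro h0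
  rw [comp_eq_zero_iff] at h0
  rcases h0 with h0 | h0
  · exact hP h0
  · rw [h0.2, natDegree_C] at hd
    omega

/-- the norm of a prime over `P` is a power of `P` -/
theorem nm_dvd (hc : IsCover K L f) (hm : f.Monic) (hd : f.natDegree = 3) {P R : k[X]}
    (hR : R ∣ P.comp f) : nm K L R ∣ P ^ 3 := by
  obtain ⟨Z, hZ⟩ := hR
  exact ⟨nm K L Z, by rw [← nm_mul hc hm hd, ← hZ, nm_comp hc hm hd]⟩

/-- some prime over `P` has a norm of odd exponent -/
theorem exists_odd (hc : IsCover K L f) (hm : f.Monic) (hd : f.natDegree = 3) {P : k[X]}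
    (hP : Irreducible P) : ∃ R ∈ primes (P.comp f), ¬ Even (multiplicity P (nm K L R)) := by
  by_contra hcon
  push Not at hcon
  have hPf := comp_ne hd hP.ne_zero
  have key : ∀ (n : ℕ) (Z : k[X]), Z.natDegree = n → Z ∣ P.comp f → Z ≠ 0 →
      Even (multiplicity P (nm K L Z)) := by
    intro n
    induction n using Nat.strong_induction_on with
    | _ n ih =>
      intro Z hn hZ hZ0
      by_cases hu : IsUnit Z
      · obtain ⟨v, hv, rfl⟩ := isUnit_iff.1 hu
        rw [nm_C hc hm hd, mult_zero]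
        · exact Even.zero
        · intro h
          exact hP.not_isUnit (isUnit_of_dvd_unit h (isUnit_C.2 (hv.pow 3)))
      · obtain ⟨R, hR, Z', hZ'⟩ := WfDvdMonoid.exists_irreducible_factor hu hZ0
        have hZ'0 : Z' ≠ 0 := by
          rintro rfl
          rw [mul_zero] at hZ'
          exact hZ0 hZ'
        obtain ⟨R1, δ, hδ, hR1⟩ := exists_MI_eq hR
        have hRd : R1.1 ∣ P.comp f := by
          refine (Dvd.intro_left (C δ * Z') ?_ : R1.1 ∣ Z).trans hZ
          rw [hZ', hR1]
          ring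
        have h1 := hcon R1.1 ((mem_primes hPf _).2 ⟨R1.2.1, R1.2.2, hRd⟩)
        have h2 := ih Z'.natDegree (by
          rw [← hn, hZ', natDegree_mul hR.ne_zero hZ'0]
          have := hR.natDegree_pos
          omega) Z' rfl ((Dvd.intro_left R hZ'.symm).trans hZ) hZ'0
        have hCδ : nm K L (C δ) ≠ 0 := nm_ne hc hm hd (C_ne_zero.2 hδ)
        have hR10 : nm K L R1.1 ≠ 0 := nm_ne hc hm hd R1.2.2.ne_zero
        have hZ'1 : nm K L Z' ≠ 0 := nm_ne hc hm hd hZ'0
        have h3 : multiplicity P (nm K L (C δ)) = 0 := by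
          rw [nm_C hc hm hd, mult_zero]
          intro h
          exact hP.not_isUnit (isUnit_of_dvd_unit h
            (isUnit_C.2 ((isUnit_iff_ne_zero.2 hδ).pow 3)))
        rw [hZ', hR1, nm_mul hc hm hd, nm_mul hc hm hd, mult_mul hP (mul_ne_zero hCδ hR10) hZ'1,
          mult_mul hP hCδ hR10, h3, zero_add]
        exact h1.add h2
  have h1 := key _ (P.comp f) rfl dvd_rfl hPf
  have h2 : multiplicity P (P ^ 3) = 3 := by
    have h3 : ¬ P ^ 4 ∣ P ^ 3 := by
      intro h4
      have h5 := natDegree_le_of_dvd h4 (pow_ne_zero 3 hP.ne_zero)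
      rw [natDegree_pow, natDegree_pow] at h5
      have := hP.natDegree_pos
      omega
    exact multiplicity_eq_of_dvd_of_not_dvd dvd_rfl h3
  rw [nm_comp hc hm hd, h2] at h1
  exact absurd h1 (by decide)

end norm

end Pool.Agent.X261.TD
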