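import Pool.Agent.X261.TD.Cls
import Pool.Agent.X261.TW.Rank

/-!
The points modulo two.
-/

set_option autoImplicit false

open Polynomial WeierstrassCurve WeierstrassCurve.Affine
open scoped Classical

namespace Pool.Agent.X261.TD

open Pool.Agent.X261.TW Pool.Agent.TH943.HJ

section points

variable {k K L : Type} [Field k] [Field K] [Field L] [Algebra k[X] K] [IsFractionRing k[X] K]
  [Algebra k[X] L] [IsFractionRing k[X] L] [Algebra K L] {f D : k[X]}

/-- the class of the function `x - D θ` at a point -/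
def IsClass (L : Type) [Field L] [Algebra k[X] L] [Algebra K L] (f D : k[X])
    (S : Pts (curve K f D)) (g : k[X]) : Prop :=
  g ≠ 0 ∧ EvenOff (D.comp f) g ∧ (∃ s : K, Algebra.norm K (algebraMap k[X] L g) = s ^ 2) ∧
    (S = 0 ∧ g = 1 ∨ ∃ (x y : K) (h : (curve K f D).toAffine.Nonsingular x y) (H : k[X]),
      S = Point.some x y h ∧ H ≠ 0 ∧
      (algebraMap K L x - algebraMap K L (algebraMap k[X] K D) * algebraMap k[X] L X) *
        algebraMap k[X] L H ^ 2 = algebraMap k[X] L g)

theorem exists_class (hc : IsCover K L f) (hm : f.Monic) (hd : f.natDegree = 3)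
    (h2 : (2 : k) ≠ 0) (hD : D ≠ 0) (S : Pts (curve K f D)) : ∃ g, IsClass L f D S g := by
  have hsh := isShort (K := K) (L := L) hc hm hd h2 hD
  rcases S with _ | ⟨x, y, hxy⟩
  · refine ⟨1, one_ne_zero, ⟨0, 1, 1, by rw [pow_zero], by ring⟩, ⟨1, ?_⟩, Or.inl ⟨rfl, rfl⟩⟩
    rw [map_one, map_one, one_pow]
  · obtain ⟨g, H, h1, h3, h4, h5, s, h6⟩ := point_class (K := K) (L := L) hc hm hd hD
      (hsh.nonsingular.1 hxy)
    exact ⟨g, h1, h4, ⟨s, h6⟩, Or.inr ⟨x, y, hxy, H, rfl, h3, h5⟩⟩

theorem two_of_square (hc : IsCover K L f) (hm : f.Monic) (hd : f.natDegree = 3)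
    (h2 : (2 : k) ≠ 0) (hD : D ≠ 0) {S : Pts (curve K f D)} {g H : k[X]}
    (hg : IsClass L f D S g) (hgH : g = H ^ 2) : ∃ R, R + R = S := by
  have hsh := isShort (K := K) (L := L) hc hm hd h2 hD
  rcases hg.2.2.2 with ⟨h, -⟩ | ⟨x, y, h, H', rfl, hH', e⟩
  · exact ⟨0, by rw [h, add_zero]⟩
  · have hHL : algebraMap k[X] L H' ≠ 0 := (map_ne_zero_iff _ (inj_frac L)).2 hH'
    refine hsh.halve h (s := algebraMap k[X] L H / algebraMap k[X] L H') ?_
    rw [div_pow, ← map_pow, ← hgH, ← e]
    field_simp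

/-- the product of the classes -/
theorem two_of_prod (hc : IsCover K L f) (hm : f.Monic) (hd : f.natDegree = 3)
    (h2 : (2 : k) ≠ 0) (hD : D ≠ 0) {S T : Pts (curve K f D)} {g g' H : k[X]}
    (hg : IsClass L f D S g) (hg' : IsClass L f D T g') (hgH : g * g' = H ^ 2) :
    ∃ R, R + R = S + T := by
  have hsh := isShort (K := K) (L := L) hc hm hd h2 hD
  rcases hg.2.2.2 with ⟨h, h1⟩ | ⟨x₁, y₁, h₁, H₁, rfl, hH₁, e₁⟩
  · rw [h, zero_add]
    rw [h1, one_mul] at hgH
    exact two_of_square hc hm hd h2 hD hg' hgH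
  · rcases hg'.2.2.2 with ⟨h, h1⟩ | ⟨x₂, y₂, h₂, H₂, rfl, hH₂, e₂⟩
    · rw [h, add_zero]
      rw [h1, mul_one] at hgH
      exact two_of_square hc hm hd h2 hD hg hgH
    · rcases h : (Point.some x₁ y₁ h₁ + Point.some x₂ y₂ h₂ : Pts (curve K f D)) with
        _ | ⟨x₃, y₃, h₃⟩
      · exact ⟨0, add_zero 0⟩
      · obtain ⟨s, hs⟩ := hsh.hom h
        have hH₁L : algebraMap k[X] L H₁ ≠ 0 := (map_ne_zero_iff _ (inj_frac L)).2 hH₁
        have hH₂L : algebraMap k[X] L H₂ ≠ 0 := (map_ne_zero_iff _ (inj_frac L)).2 hH₂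
        have hgL : algebraMap k[X] L g ≠ 0 := (map_ne_zero_iff _ (inj_frac L)).2 hg.1
        have hg'L : algebraMap k[X] L g' ≠ 0 := (map_ne_zero_iff _ (inj_frac L)).2 hg'.1
        have hHL : algebraMap k[X] L H ^ 2 = algebraMap k[X] L g * algebraMap k[X] L g' := by
          rw [← map_pow, ← hgH, map_mul]
        have hHne : algebraMap k[X] L H ≠ 0 := by
          intro h0
          rw [h0, zero_pow two_ne_zero] at hHL
          exact mul_ne_zero hgL hg'L hHL.symm
        refine hsh.halve h₃ (s := s * (algebraMap k[X] L H₁ * algebraMap k[X] L H₂) /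
          algebraMap k[X] L H) ?_
        have e3 : (algebraMap K L x₁ - algebraMap K L (algebraMap k[X] K D) *
            algebraMap k[X] L X) * (algebraMap K L x₂ - algebraMap K L (algebraMap k[X] K D) *
            algebraMap k[X] L X) * (algebraMap k[X] L H₁ * algebraMap k[X] L H₂) ^ 2 =
            algebraMap k[X] L H ^ 2 := by
          rw [hHL, ← e₁, ← e₂]
          ring
        have e4 := hs
        rw [div_pow, mul_pow, ← e4]
        rw [eq_div_iff (pow_ne_zero 2 hHne), ← e3]
        ring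

/-- the parities of the class at the primes over the divisors of `D`, except for one over each -/
theorem parity (hc : IsCover K L f) (hm : f.Monic) (hd : f.natDegree = 3)
    (h2 : (2 : k) ≠ 0) (hD : D ≠ 0) {r : k[X] → k[X]} (hr : IsChoice K L f D r)
    {S T : Pts (curve K f D)} {g g' : k[X]} (hg : IsClass L f D S g) (hg' : IsClass L f D T g')
    (h : ∀ R ∈ others f D r, Even (multiplicity R g) ↔ Even (multiplicity R g')) :
    ∃ R, R + R = S + T := by
  obtain ⟨s, hs⟩ := hg.2.2.1
  obtain ⟨s', hs'⟩ := hg'.2.2.1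
  have hirr : ∀ R ∈ others f D r, Irreducible R := by
    intro R hR
    unfold others at hR
    rw [Finset.mem_biUnion] at hR
    obtain ⟨P, hP, hRP⟩ := hR
    have hP' := (mem_primes hD P).1 hP
    exact ((mem_primes (comp_ne hd hP'.2.1.ne_zero) R).1 (Finset.mem_of_mem_erase hRP)).2.1
  obtain ⟨H, hH⟩ := square_of (K := K) (L := L) hc hm hd hD hr (mul_ne_zero hg.1 hg'.1)
    (hg.2.1.mul hg'.2.1) (s := s * s') (by rw [map_mul, map_mul, hs, hs']; ring)
    (fun R hR => by
      rw [mult_mul (hirr R hR) hg.1 hg'.1, Nat.even_add]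
      exact h R hR)
  exact two_of_prod hc hm hd h2 hD hg hg' hH

end points

section index

variable {A : Type} [AddCommGroup A]

/-- The number of the classes modulo two. -/
noncomputable def indexTwo (A : Type) [AddCommGroup A] : ℕ :=
  (zsmulAddGroupHom (2 : ℤ) : A →+ A).range.index

theorem mem_range_two {a : A} : a ∈ (zsmulAddGroupHom (2 : ℤ) : A →+ A).range ↔
    ∃ R : A, R + R = a := by
  rw [AddMonoidHom.mem_range]
  refine exists_congr fun R => ?_
  rw [zsmulAddGroupHom_apply, two_zsmul]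

/-- a function on the group which separates the classes modulo two -/
theorem index_le {α : Type} [Fintype α] (φ : A → α)
    (h : ∀ S T : A, φ S = φ T → ∃ R, R + R = S + T) :
    indexTwo A ≠ 0 ∧ indexTwo A ≤ Fintype.card α := by
  set H := (zsmulAddGroupHom (2 : ℤ) : A →+ A).range with hH
  have hinj : Function.Injective (fun q : A ⧸ H => φ q.out) := by
    intro q q' hq
    obtain ⟨R, hR⟩ := h _ _ hq
    rw [← QuotientAddGroup.out_eq' q, ← QuotientAddGroup.out_eq' q']
    rw [QuotientAddGroup.eq]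
    refine mem_range_two.2 ⟨R - q.out, ?_⟩
    have : R - q.out + (R - q.out) = (R + R) - (q.out + q.out) := by abel
    rw [this, hR]
    abel
  have hfin : Finite (A ⧸ H) := Finite.of_injective _ hinj
  constructor
  · unfold indexTwo
    rw [← hH]
    unfold AddSubgroup.index
    exact Nat.card_pos.ne'
  · unfold indexTwo
    rw [← hH]
    unfold AddSubgroup.index
    rw [← Nat.card_eq_fintype_card]
    exact Nat.card_le_card_of_injective _ hinj

/-- the rank -/
theorem two_pow_rank_le (h0 : indexTwo A ≠ 0) (hfin : Module.Finite ℤ A) :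
    2 ^ Module.finrank ℤ A ≤ indexTwo A := by
  set H := (zsmulAddGroupHom (2 : ℤ) : A →+ A).range with hH
  have hr : Module.finrank ℤ (A ⧸ Submodule.torsion ℤ A) = Module.finrank ℤ A := by
    unfold Module.finrank
    rw [rank_quotient_eq_of_le_torsion le_rfl]
  rw [← hr]
  set b := Module.finBasis ℤ (A ⧸ Submodule.torsion ℤ A) with hb
  set n := Module.finrank ℤ (A ⧸ Submodule.torsion ℤ A) with hn
  have hsurj := Submodule.mkQ_surjective (Submodule.torsion ℤ A)
  choose x hx using fun ε : Fin n → Bool =>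
    hsurj (∑ i, (if ε i then (1 : ℤ) else 0) • b i)
  have hfi : H.FiniteIndex := ⟨h0⟩
  have hfq : Finite (A ⧸ H) := AddSubgroup.finite_quotient_of_finiteIndex
  have hinj : Function.Injective (fun ε : Fin n → Bool => (x ε : A ⧸ H)) := by
    intro ε ε' he
    have he' : (x ε : A ⧸ H) = (x ε' : A ⧸ H) := he
    rw [QuotientAddGroup.eq, hH, mem_range_two] at he'
    obtain ⟨R, hR⟩ := he'
    funext i
    have h1 := congrArg (fun a => b.repr (Submodule.mkQ (Submodule.torsion ℤ A) a) i) hR
    simp only [map_add, map_neg, Finsupp.add_apply, Finsupp.neg_apply] at h1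
    rw [hx, hx, b.repr_sum_self, b.repr_sum_self] at h1
    generalize b.repr (Submodule.mkQ (Submodule.torsion ℤ A) R) i = z at h1
    cases h3 : ε i <;> cases h4 : ε' i <;> simp [h3, h4] at h1 ⊢ <;> omega
  have h1 := Nat.card_le_card_of_injective _ hinj
  rw [Nat.card_eq_fintype_card, Fintype.card_fun, Fintype.card_bool, Fintype.card_fin] at h1
  exact h1

end index

section bound

variable {k K : Type} [Field k] [Field K] [Algebra k[X] K] [IsFractionRing k[X] K]
  {f D : k[X]}

/-- the bound for the number of the classes modulo two -/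
theorem index_bound (hm : f.Monic) (hd : f.natDegree = 3) (h2 : (2 : k) ≠ 0) (hD : D ≠ 0) :
    indexTwo (Pts (curve K f D)) ≠ 0 ∧ indexTwo (Pts (curve K f D)) ≤
      2 ^ ∑ P ∈ primes D, ((primes (P.comp f)).card - 1) := by
  obtain ⟨hA, hc⟩ := exists_cover (f := f) K hd
  obtain ⟨r, hr⟩ := exists_choice (K := K) (L := Cov k) hc hm hd hD
  choose g hg using exists_class (K := K) (L := Cov k) hc hm hd h2 hD
  have h1 := index_le (A := Pts (curve K f D))
    (α := {R // R ∈ others f D r} → Prop)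
    (fun S R => Even (multiplicity R.1 (g S))) (fun S T hST => by
      refine parity (K := K) (L := Cov k) hc hm hd h2 hD hr (hg S) (hg T) fun R hR => ?_
      have := congrFun hST ⟨R, hR⟩
      exact iff_of_eq this)
  refine ⟨h1.1, h1.2.trans ?_⟩
  rw [Fintype.card_fun, Fintype.card_prop, Fintype.card_coe]
  exact Nat.pow_le_pow_right two_pos (card_others fun P hP => (hr P hP).1)

theorem no_two (hm : f.Monic) (hd : f.natDegree = 3) (h2 : (2 : k) ≠ 0) (hD : D ≠ 0)
    (R : Pts (curve K f D)) (hR : R + R = 0) : R = 0 := by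
  obtain ⟨hA, hc⟩ := exists_cover (f := f) K hd
  exact (isShort (K := K) (L := Cov k) hc hm hd h2 hD).no_two hR

end bound

end Pool.Agent.X261.TD
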